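import Mathlib
import Pool.Agent.H86.EndoDist.Chain

set_option autoImplicit false

/-!
Elements of modules over Artinian chain rings split into homogeneous pieces. Left modules over a ring `B`.
-/

namespace Pool.Agent.H58.ED

universe u v

open Pool.Agent.H86.EndoDist

/-- `w` is a homogeneous piece of `x`: `w = p ^ a • y` with `p ^ k • y = 0`, and `x` can be mapped to every
`p ^ a • z` with `p ^ k • z = 0`, in every module. -/
def IsAt {B : Type u} [Ring B] (p : B) (n : ℕ) {M : Type v} [AddCommGroup M] [Module B M]
    (x w : M) : Prop :=
  ∃ (a k : ℕ) (y : M), w = p ^ a • y ∧ p ^ k • y = 0 ∧ k ≤ n ∧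
    ∀ (P : Type v) [AddCommGroup P] [Module B P] (z : P), p ^ k • z = 0 →
      ∃ f : M →ₗ[B] P, f x = p ^ a • z

theorem atoms : ∀ (n : ℕ) (B : Type u) [Ring B] (p : B), ChainData B p n →
    ∀ (M : Type v) [AddCommGroup M] [Module B M] (x : M),
      x ∈ AddSubmonoid.closure {w : M | IsAt p n x w} := by
  intro n
  induction n with
  | zero =>
    intro B _ p hB M _ _ x
    have h1 : (1 : B) = 0 := by simpa using hB.pow_eq
    have h2 : x = 0 := by rw [← one_smul B x, h1, zero_smul]
    rw [h2]
    exact AddSubmonoid.zero_mem _
  | succ n ih =>
    intro B _ p hB M _ _ x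
    by_cases hn : p ^ n = 0
    · have h := ih B p ⟨hn, hB.left, hB.right, hB.swap, hB.swap'⟩ M x
      refine AddSubmonoid.closure_mono ?_ h
      rintro w ⟨a, k, y, h1, h2, h3, h4⟩
      exact ⟨a, k, y, h1, h2, by omega, h4⟩
    · classical
      obtain ⟨s, hs, hmax⟩ := exists_maximal_linearIndepOn B (id : M → M)
      set L : (s →₀ B) →ₗ[B] M := Finsupp.linearCombination B (fun x : s => (x : M)) with hL
      have hinj : Function.Injective L := by
        have : LinearIndependent B (fun x : s => (x : M)) := hs
        exact this
      obtain ⟨h, hh⟩ := (hB.baer hn s).extension_property L hinj LinearMap.id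
      have hhL : ∀ q, h (L q) = q := fun q => by
        have := congrArg (fun f => f q) hh
        simpa using this
      -- `p ^ n` kills the kernel of `h`
      have hker : ∀ m : M, h m = 0 → p ^ n • m = 0 := by
        intro m hm
        have hms : m ∉ s := by
          intro hms
          have h1 : L (Finsupp.single ⟨m, hms⟩ 1) = m := by simp [hL]
          have h2 := hhL (Finsupp.single ⟨m, hms⟩ 1)
          rw [h1, hm] at h2
          have h3 : (1 : B) = 0 := by
            have := congrArg (fun f : s →₀ B => f ⟨m, hms⟩) h2
            simpa using this.symm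
          exact hn (by rw [← mul_one (p ^ n), h3, mul_zero])
        obtain ⟨a, ha, ham⟩ := hmax m hms
        have h4 : a • m ∈ LinearMap.range L := by
          rw [hL, Finsupp.range_linearCombination]
          simpa using ham
        obtain ⟨q, hq⟩ := h4
        have h5 : q = 0 := by
          rw [← hhL q, hq, map_smul, hm, smul_zero]
        rw [h5, map_zero] at hq
        obtain ⟨k, w, rfl⟩ := hB.left a
        have h6 : p ^ k • m = 0 := by
          have : ((w⁻¹ : Bˣ) : B) • (((w : B) * p ^ k) • m) = 0 := by
            rw [← hq, smul_zero]
          rwa [← mul_smul, ← mul_assoc, Units.inv_mul, one_mul] at this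
        have hk : k ≤ n := by
          by_contra hcon
          push Not at hcon
          obtain ⟨i, rfl⟩ := Nat.exists_eq_add_of_le (Nat.succ_le_of_lt hcon)
          apply ha
          rw [Nat.succ_eq_add_one, pow_add, hB.pow_eq, zero_mul, mul_zero]
        obtain ⟨i, rfl⟩ := Nat.exists_eq_add_of_le hk
        rw [add_comm, pow_add, mul_smul, h6, smul_zero]
      -- the complement
      set K := LinearMap.ker h with hK
      have := hB.twoSided
      set I : Ideal B := Ideal.span {p ^ n} with hI
      have tors : ∀ (Q : Type v) [AddCommGroup Q] [Module B Q], (∀ q : Q, p ^ n • q = 0) →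
          Module.IsTorsionBySet B Q (I : Set B) := by
        intro Q _ _ hQ q a
        obtain ⟨c, hc⟩ := ChainData.mem_span (a : B) a.2
        rw [hc, mul_smul, hQ, smul_zero]
      have htors : Module.IsTorsionBySet B K (I : Set B) := tors K (fun q => by
        ext
        exact hker q.1 q.2)
      let _ := htors.module
      -- projection on `K`
      let P : M →ₗ[B] K := LinearMap.codRestrict K (LinearMap.id - L ∘ₗ h) (by
        intro m
        simp [hK, hhL])
      have hP : ∀ m, ((P m : K) : M) = m - L (h m) := fun m => rfl
      have hIH := ih (B ⧸ I) _ hB.quot K (P x)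
      -- the pieces in `K`
      have hx1 : ((P x : K) : M) ∈ AddSubmonoid.closure {w : M | IsAt p (n + 1) x w} := by
        have h1 := AddSubmonoid.mem_map_of_mem (K.subtype.toAddMonoidHom) hIH
        rw [AddMonoidHom.map_mclosure] at h1
        refine AddSubmonoid.closure_mono ?_ h1
        rintro _ ⟨w, ⟨a, k, y, h1, h2, h3, h4⟩, rfl⟩
        refine ⟨a, k, (y : M), ?_, ?_, by omega, ?_⟩
        · rw [h1]
          have h5 : ((Ideal.Quotient.mk I p) ^ a • y : K) = p ^ a • y := by
            rw [← map_pow]
            rfl
          rw [h5]
          rfl
        · have h5 : ((Ideal.Quotient.mk I p) ^ k • y : K) = p ^ k • y := by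
            rw [← map_pow]
            rfl
          rw [h5] at h2
          exact congrArg (fun q : K => (q : M)) h2
        · intro Q _ _ z hz
          let Q' : Submodule B Q :=
            { carrier := {q | p ^ n • q = 0}
              add_mem' := fun {a b} ha hb => by
                simp only [Set.mem_ofPred_eq] at *
                rw [smul_add, ha, hb, add_zero]
              zero_mem' := by simp
              smul_mem' := fun c q hq => by
                simp only [Set.mem_ofPred_eq] at *
                obtain ⟨d, hd⟩ := hB.swap_pow n c
                rw [← mul_smul, hd, mul_smul, hq, smul_zero] }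
          have htors' : Module.IsTorsionBySet B Q' (I : Set B) := tors Q' (fun q => by
            ext
            exact q.2)
          let _ := htors'.module
          have hz' : p ^ n • z = 0 := by
            obtain ⟨i, hi⟩ := Nat.exists_eq_add_of_le h3
            rw [hi, add_comm, pow_add, mul_smul, hz, smul_zero]
          obtain ⟨g, hg⟩ := h4 Q' ⟨z, hz'⟩ (by
            rw [← map_pow]
            ext
            exact hz)
          let g' : K →ₗ[B] Q' :=
            { toFun := g
              map_add' := g.map_add
              map_smul' := fun b q => by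
                have h1 : b • q = Ideal.Quotient.mk I b • q := rfl
                rw [h1, g.map_smul]
                rfl }
          refine ⟨Q'.subtype ∘ₗ g' ∘ₗ P, ?_⟩
          have h6 : g (P x) = p ^ a • (⟨z, hz'⟩ : Q') := by
            rw [hg, ← map_pow]
            rfl
          show ((g (P x) : Q') : Q) = p ^ a • z
          rw [h6]
          rfl
      -- the free piece
      have hx2 : L (h x) ∈ AddSubmonoid.closure {w : M | IsAt p (n + 1) x w} := by
        by_cases hu : h x = 0
        · rw [hu, map_zero]
          exact AddSubmonoid.zero_mem _
        apply AddSubmonoid.subset_closure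
        choose α w hw using fun i : s => hB.right (h x i)
        have hne : (h x).support.Nonempty := Finsupp.support_nonempty_iff.2 hu
        obtain ⟨i₀, hi₀, hmin⟩ := Finset.exists_min_image (h x).support α hne
        have hv : ∀ i : s, ∃ c : B, (h x i ≠ 0 → h x i = p ^ α i₀ * c) := by
          intro i
          by_cases hi : h x i = 0
          · exact ⟨0, fun h => absurd hi h⟩
          · obtain ⟨j, hj⟩ := Nat.exists_eq_add_of_le (hmin i (Finsupp.mem_support_iff.2 hi))
            refine ⟨p ^ j * w i, fun _ => ?_⟩
            rw [hw i, hj, pow_add, mul_assoc]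
        choose c hc using hv
        set t : s →₀ B := Finsupp.onFinset (h x).support (fun i => if h x i = 0 then 0 else c i) (by
          intro i hi
          rw [Finsupp.mem_support_iff]
          intro h
          simp [h] at hi) with ht
        have hpt : p ^ α i₀ • t = h x := by
          ext i
          simp only [ht, Finsupp.smul_apply, Finsupp.onFinset_apply, smul_eq_mul]
          split_ifs with h5
          · rw [mul_zero, h5]
          · exact (hc i h5).symm
        refine ⟨α i₀, n + 1, L t, ?_, ?_, le_rfl, ?_⟩
        · rw [← map_smul, hpt]
        · rw [hB.pow_eq, zero_smul]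
        · intro Q _ _ z _
          refine ⟨(LinearMap.toSpanSingleton B Q (((w i₀)⁻¹ : Bˣ) • z)) ∘ₗ
            (Finsupp.lapply i₀) ∘ₗ h, ?_⟩
          show (h x i₀) • (((w i₀)⁻¹ : Bˣ) • z) = p ^ α i₀ • z
          rw [hw i₀, Units.smul_def, ← mul_smul, mul_assoc, Units.mul_inv, mul_one]
      have hx3 : x = ((P x : K) : M) + L (h x) := by
        rw [hP]
        abel
      have h7 := AddSubmonoid.add_mem _ hx1 hx2
      rwa [← hx3] at h7

end Pool.Agent.H58.ED
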