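import Pool.Agent.H58.ED.Atom

set_option autoImplicit false

/-!
The number of `End`-submodules of a module over a finite product of Artinian chain rings.
-/

namespace Pool.Agent.H58.ED

universe u v

open Pool.Agent.H86.EndoDist

section

variable {ι : Type} [Fintype ι] [DecidableEq ι] {B : Type u} [Ring B] {R : ι → Type u}
  [∀ i, Ring (R i)] (e : B ≃+* (∀ i, R i)) (p : ∀ i, R i) (n : ι → ℕ)

/-- the idempotent of the factor `i` -/
def ep (i : ι) : B := e.symm (Pi.single i 1)

/-- the generator of the radical of the factor `i` -/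
def pe (i : ι) : B := e.symm (Pi.single i (p i))

/-- the elements of type `(i, k)` -/
def T (M : Type v) [AddCommGroup M] [Module B M] (i : ι) (k : ℕ) : Set M :=
  {m | ep e i • m = m ∧ pe e p i ^ k • m = 0}

lemma ep_comm (i : ι) (b : B) : ep e i * b = b * ep e i := by
  apply e.injective
  ext j
  simp only [ep, map_mul, RingEquiv.apply_symm_apply, Pi.mul_apply]
  by_cases hij : j = i
  · subst hij; simp
  · simp [Pi.single_eq_of_ne hij]

lemma ep_idem (i : ι) : ep e i * ep e i = ep e i := by
  apply e.injective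
  ext j
  simp only [ep, map_mul, RingEquiv.apply_symm_apply, Pi.mul_apply]
  by_cases hij : j = i
  · subst hij; simp
  · simp [Pi.single_eq_of_ne hij]

lemma ep_sum : ∑ i, ep e i = 1 := by
  apply e.injective
  rw [map_sum, map_one]
  simp only [ep, RingEquiv.apply_symm_apply]
  exact Finset.univ_sum_single (1 : ∀ i, R i)

variable {M : Type v} [AddCommGroup M] [Module B M]

lemma T_smul {i : ι} {k : ℕ} {z : M} (hz : z ∈ T e p M i k) (a : ℕ) :
    pe e p i ^ a • z ∈ T e p M i k := by
  refine ⟨?_, ?_⟩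
  · rw [← mul_smul, ep_comm, mul_smul, hz.1]
  · rw [← mul_smul, ← pow_add, add_comm, pow_add, mul_smul, hz.2, smul_zero]

lemma T_mono {i : ι} {k : ℕ} {z : M} (hz : z ∈ T e p M i k) : z ∈ T e p M i (k + 1) := by
  refine ⟨hz.1, ?_⟩
  rw [add_comm, pow_add, mul_smul, hz.2, smul_zero]

lemma T_down {i : ι} {k : ℕ} {z : M} (hz : z ∈ T e p M i (k + 1)) :
    pe e p i • z ∈ T e p M i k := by
  refine ⟨?_, ?_⟩
  · rw [← mul_smul, ep_comm, mul_smul, hz.1]
  · rw [← mul_smul, ← pow_succ, hz.2]

/-- `w` is a homogeneous piece of `x` -/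
def At (x w : M) : Prop :=
  ∃ (i : ι) (a k : ℕ) (y : M), w = pe e p i ^ a • y ∧ y ∈ T e p M i k ∧ k ≤ n i ∧
    ∀ z ∈ T e p M i k, ∃ f : M →ₗ[B] M, f x = pe e p i ^ a • z

theorem atoms_pi (hR : ∀ i, ChainData (R i) (p i) (n i)) (x : M) :
    x ∈ AddSubmonoid.closure {w : M | At e p n x w} := by
  classical
  let K : ι → Submodule B M := fun i =>
    { carrier := {m | ep e i • m = m}
      add_mem' := fun {a b} ha hb => by
        simp only [Set.mem_ofPred_eq] at *
        rw [smul_add, ha, hb]
      zero_mem' := by simp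
      smul_mem' := fun c x hx => by
        simp only [Set.mem_ofPred_eq] at *
        rw [← mul_smul, ep_comm, mul_smul, hx] }
  have hK : ∀ i (m : M), m ∈ K i ↔ ep e i • m = m := fun i m => Iff.rfl
  let φ : ∀ i, B →+* R i := fun i => (Pi.evalRingHom R i).comp e.toRingHom
  have hφ : ∀ i, Function.Surjective (φ i) := by
    intro i r
    refine ⟨e.symm (Pi.single i r), ?_⟩
    simp [φ]
  have hφp : ∀ i, φ i (pe e p i) = p i := by
    intro i
    simp [φ, pe]
  let P : ∀ i, M →ₗ[B] (K i) := fun i =>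
    { toFun := fun m => ⟨ep e i • m, by rw [hK, ← mul_smul, ep_idem]⟩
      map_add' := fun a b => by ext; simp
      map_smul' := fun c x => by
        ext
        simp only [RingHom.id_apply, Submodule.coe_smul]
        rw [← mul_smul, ep_comm, mul_smul] }
  have hP : ∀ i m, ((P i m : K i) : M) = ep e i • m := fun i m => rfl
  have key : ∀ i, ep e i • x ∈ AddSubmonoid.closure {w : M | At e p n x w} := by
    intro i
    let _ : SMul (R i) (K i) := ⟨fun r x => e.symm (Pi.single i r) • x⟩
    have hsm : ∀ (b : B) (x : K i), (φ i b) • x = b • x := by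
      intro b x
      change e.symm (Pi.single i (φ i b)) • x = b • x
      have h1 : e.symm (Pi.single i (φ i b)) = b * ep e i := by
        apply e.injective
        ext j
        simp only [ep, map_mul, RingEquiv.apply_symm_apply, Pi.mul_apply]
        by_cases hij : j = i
        · subst hij; simp [φ]
        · simp [Pi.single_eq_of_ne hij]
      rw [h1, mul_smul]
      congr 1
      exact Subtype.ext ((hK i _).mp x.2)
    let _ : Module (R i) (K i) := Function.Surjective.moduleLeft (φ i) (hφ i) hsm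
    have hpow : ∀ (a : ℕ) (y : K i), p i ^ a • y = pe e p i ^ a • y := by
      intro a y
      rw [← hφp i, ← map_pow, hsm]
    have hA := atoms (n i) (R i) (p i) (hR i) (K i) (P i x)
    have h1 := AddSubmonoid.mem_map_of_mem ((K i).subtype.toAddMonoidHom) hA
    rw [AddMonoidHom.map_mclosure] at h1
    refine AddSubmonoid.closure_mono ?_ h1
    rintro _ ⟨w, ⟨a, k, y, h1, h2, h3, h4⟩, rfl⟩
    refine ⟨i, a, k, (y : M), ?_, ⟨(hK i _).1 y.2, ?_⟩, h3, ?_⟩
    · rw [h1, hpow]
      rfl
    · rw [hpow] at h2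
      exact congrArg (fun q : K i => (q : M)) h2
    · intro z hz
      obtain ⟨f, hf⟩ := h4 (K i) ⟨z, (hK i z).2 hz.1⟩ (by
        rw [hpow]
        ext
        exact hz.2)
      let f' : (K i) →ₗ[B] (K i) :=
        { toFun := f
          map_add' := f.map_add
          map_smul' := fun b x => by
            rw [← hsm b x, f.map_smul, hsm]
            rfl }
      refine ⟨(K i).subtype ∘ₗ f' ∘ₗ P i, ?_⟩
      show ((f (P i x) : K i) : M) = pe e p i ^ a • z
      rw [hf, hpow]
      rfl
  have h2 : x = ∑ i, ep e i • x := by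
    rw [← Finset.sum_smul, ep_sum, one_smul]
  have h3 : ∑ i, ep e i • x ∈ AddSubmonoid.closure {w : M | At e p n x w} :=
    AddSubmonoid.sum_mem _ fun i _ => key i
  rwa [← h2] at h3

/-- the exponent of the layer `(i, k)` in `N` -/
noncomputable def Ax (N : Submodule (Module.End B M) M) (i : ι) (k : ℕ) : ℕ :=
  sInf {a : ℕ | ∀ z ∈ T e p M i k, pe e p i ^ a • z ∈ N}

lemma Ax_spec (N : Submodule (Module.End B M) M) (i : ι) (k : ℕ) :
    ∀ z ∈ T e p M i k, pe e p i ^ (Ax e p N i k) • z ∈ N := by
  have hne : {a : ℕ | ∀ z ∈ T e p M i k, pe e p i ^ a • z ∈ N}.Nonempty :=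
    ⟨k, fun z hz => by rw [hz.2]; exact N.zero_mem⟩
  exact Nat.sInf_mem hne

lemma Ax_le {N : Submodule (Module.End B M) M} {i : ι} {k a : ℕ}
    (h : ∀ z ∈ T e p M i k, pe e p i ^ a • z ∈ N) : Ax e p N i k ≤ a :=
  Nat.sInf_le h

lemma Ax_zero (N : Submodule (Module.End B M) M) (i : ι) : Ax e p N i 0 = 0 := by
  refine Nat.le_zero.1 (Ax_le e p fun z hz => ?_)
  rw [hz.2]
  exact N.zero_mem

lemma Ax_mono (N : Submodule (Module.End B M) M) (i : ι) (k : ℕ) :
    Ax e p N i k ≤ Ax e p N i (k + 1) :=
  Ax_le e p fun z hz => Ax_spec e p N i (k + 1) z (T_mono e p hz)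

lemma Ax_succ (N : Submodule (Module.End B M) M) (i : ι) (k : ℕ) :
    Ax e p N i (k + 1) ≤ Ax e p N i k + 1 := by
  refine Ax_le e p fun z hz => ?_
  rw [pow_succ, mul_smul]
  exact Ax_spec e p N i k _ (T_down e p hz)

theorem le_of_Ax (hR : ∀ i, ChainData (R i) (p i) (n i)) {N N' : Submodule (Module.End B M) M}
    (h : ∀ i k, k ≤ n i → Ax e p N' i k ≤ Ax e p N i k) : N ≤ N' := by
  intro x hx
  refine (AddSubmonoid.closure_le (S := N'.toAddSubmonoid)).2 ?_ (atoms_pi e p n hR x)
  rintro w ⟨i, a, k, y, rfl, hy, hk, hf⟩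
  have h1 : Ax e p N i k ≤ a := by
    refine Ax_le e p fun z hz => ?_
    obtain ⟨f, hf⟩ := hf z hz
    rw [← hf]
    exact N.smul_mem (f : Module.End B M) hx
  obtain ⟨j, hj⟩ := Nat.exists_eq_add_of_le ((h i k hk).trans h1)
  show pe e p i ^ a • y ∈ N'
  rw [hj, pow_add, mul_smul]
  exact Ax_spec e p N' i k _ (T_smul e p hy j)

/-- the increments -/
noncomputable def bits (N : Submodule (Module.End B M) M) : (Σ i, Fin (n i)) → Bool := fun q =>
  decide (Ax e p N q.1 (q.2 + 1) = Ax e p N q.1 q.2 + 1)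

theorem bits_injective (hR : ∀ i, ChainData (R i) (p i) (n i)) :
    Function.Injective (bits e p n : Submodule (Module.End B M) M → _) := by
  intro N N' h
  have key : ∀ i k, k ≤ n i → Ax e p N i k = Ax e p N' i k := by
    intro i k
    induction k with
    | zero => intro _; rw [Ax_zero, Ax_zero]
    | succ k ih =>
      intro hk
      have h1 := ih (by omega)
      have h2 := congrFun h ⟨i, ⟨k, by omega⟩⟩
      simp only [bits, decide_eq_decide] at h2
      have h3 := Ax_mono e p N i k
      have h4 := Ax_succ e p N i k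
      have h5 := Ax_mono e p N' i k
      have h6 := Ax_succ e p N' i k
      by_cases h7 : Ax e p N i (k + 1) = Ax e p N i k + 1
      · have h8 := h2.1 h7
        omega
      · have h8 : ¬ Ax e p N' i (k + 1) = Ax e p N' i k + 1 := fun h9 => h7 (h2.2 h9)
        omega
  exact le_antisymm (le_of_Ax e p n hR fun i k hk => (key i k hk).ge)
    (le_of_Ax e p n hR fun i k hk => (key i k hk).le)

include e in
theorem card_le (hR : ∀ i, ChainData (R i) (p i) (n i)) (M : Type v) [AddCommGroup M] [Module B M] :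
    Finite (Submodule (Module.End B M) M) ∧
      Nat.card (Submodule (Module.End B M) M) ≤ 2 ^ (∑ i, n i) := by
  have hinj := bits_injective (M := M) e p n hR
  refine ⟨Finite.of_injective _ hinj, ?_⟩
  refine (Nat.card_le_card_of_injective _ hinj).trans (le_of_eq ?_)
  simp [Nat.card_eq_fintype_card, Fintype.card_sigma]

end

end Pool.Agent.H58.ED
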