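import Pool.Agent.H58.ED.Sharp
import Pool.Agent.H86.EndoDist.Op

set_option autoImplicit false

/-!
The length of a finite product of Artinian chain rings.
-/

namespace Pool.Agent.H58.ED

universe u v

open Pool.Agent.H86.EndoDist

/-- the length does not change along a surjective ring homomorphism -/
lemma length_surj {B S : Type u} [Ring B] [Ring S] {M : Type v} [AddCommGroup M] [Module B M]
    [Module S M] (φ : B →+* S) (hφ : Function.Surjective φ) (h : ∀ (b : B) (m : M), b • m = φ b • m) :
    Module.length B M = Module.length S M := by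
  have : RingHomSurjective φ := ⟨hφ⟩
  let f : M →ₛₗ[φ] M :=
    { toFun := id
      map_add' := fun _ _ => rfl
      map_smul' := fun b m => h b m }
  rw [Module.length, Module.length, WithBot.unbot_inj,
    Order.krullDim_eq_of_orderIso (Submodule.orderIsoMapComapOfBijective f Function.bijective_id)]

/-- the length of a chain ring -/
lemma length_chain {B : Type u} [Ring B] {p : B} {n : ℕ} (hB : ChainData B p n)
    (hn : ∀ k < n, p ^ k ≠ 0) : Module.length B B = n := by
  classical
  let L : ℕ → Ideal B := fun k => Ideal.span {p ^ k}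
  have hL : ∀ k x, x ∈ L k ↔ ∃ c, x = c * p ^ k := by
    intro k x
    constructor
    · intro hx
      obtain ⟨c, hc⟩ := Ideal.mem_span_singleton'.1 hx
      exact ⟨c, hc.symm⟩
    · rintro ⟨c, rfl⟩
      exact (L k).mul_mem_left c (Ideal.subset_span rfl)
  have hlt : ∀ k j, k < n → k < j → p ^ k ∉ L j := by
    intro k j hk hkj hmem
    obtain ⟨c, hc⟩ := (hL j _).1 hmem
    -- `p ^ (n - 1) = d * p ^ (n - 1 - k + j) = 0`
    obtain ⟨d, hd⟩ := hB.swap_pow (n - 1 - k) c
    have h1 : p ^ (n - 1) = 0 := by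
      have h2 : n - 1 = (n - 1 - k) + k := by omega
      calc p ^ (n - 1) = p ^ (n - 1 - k) * p ^ k := by rw [← pow_add, ← h2]
        _ = p ^ (n - 1 - k) * (c * p ^ j) := by rw [← hc]
        _ = d * p ^ (n - 1 - k + j) := by rw [← mul_assoc, hd, mul_assoc, ← pow_add]
        _ = 0 := by
          obtain ⟨i, hi⟩ := Nat.exists_eq_add_of_le (show n ≤ n - 1 - k + j by omega)
          rw [hi, pow_add, hB.pow_eq, zero_mul, mul_zero]
    exact hn (n - 1) (by omega) h1
  have hcov : ∀ k, k < n → L (k + 1) ⋖ L k := by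
    intro k hk
    have hle : L (k + 1) ≤ L k := by
      intro x hx
      obtain ⟨c, rfl⟩ := (hL _ _).1 hx
      exact (hL _ _).2 ⟨c * p, by rw [pow_succ', mul_assoc]⟩
    refine ⟨lt_of_le_of_ne hle fun h => ?_, fun I h1 h2 => ?_⟩
    · apply hlt k (k + 1) hk (Nat.lt_succ_self k)
      rw [h]
      exact Ideal.subset_span rfl
    · obtain ⟨x, hxI, hx⟩ := Set.exists_of_ssubset h1
      obtain ⟨j, w, rfl⟩ := hB.left x
      have hj : j ≤ k := by
        by_contra hcon
        apply hx
        obtain ⟨i, hi⟩ := Nat.exists_eq_add_of_le (show k + 1 ≤ j by omega)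
        refine (hL _ _).2 ⟨w * p ^ i, ?_⟩
        rw [hi, mul_assoc, ← pow_add, add_comm i]
      have h3 : p ^ j ∈ I := by
        have := I.mul_mem_left ((w⁻¹ : Bˣ) : B) hxI
        rwa [← mul_assoc, Units.inv_mul, one_mul] at this
      have h4 : p ^ k ∈ I := by
        obtain ⟨i, hi⟩ := Nat.exists_eq_add_of_le hj
        rw [hi, add_comm, pow_add]
        exact I.mul_mem_left _ h3
      exact h2.not_ge (Ideal.span_le.2 (by
        rintro _ rfl
        exact h4))
  let s : CompositionSeries (Submodule B B) :=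
    { length := n
      toFun := fun i => L (n - i)
      step := fun i => by
        show L (n - ((i.castSucc : Fin (n + 1)) : ℕ)) ⋖ L (n - ((i.succ : Fin (n + 1)) : ℕ))
        have h1 : n - ((i.castSucc : Fin (n + 1)) : ℕ) = (n - ((i.succ : Fin (n + 1)) : ℕ)) + 1 := by
          have := i.2
          simp only [Fin.val_castSucc, Fin.val_succ]
          omega
        rw [h1]
        apply hcov
        have := i.2
        simp only [Fin.val_succ]
        omega }
  have h1 : s.head = ⊥ := by
    show L (n - 0) = ⊥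
    rw [Nat.sub_zero, eq_bot_iff]
    intro x hx
    obtain ⟨c, rfl⟩ := (hL _ _).1 hx
    rw [hB.pow_eq, mul_zero]
    exact Submodule.zero_mem _
  have h2 : s.last = ⊤ := by
    show L (n - n) = ⊤
    rw [Nat.sub_self, Ideal.eq_top_iff_one]
    exact (hL _ _).2 ⟨1, by simp⟩
  have h3 := Module.length_compositionSeries s h1 h2
  exact h3.symm

theorem length_pi {ι : Type} [Fintype ι] {B : Type u} [Ring B] {R : ι → Type u}
    [∀ i, Ring (R i)] (e : B ≃+* (∀ i, R i)) (p : ∀ i, R i) (n : ι → ℕ)
    (hR : ∀ i, ChainData (R i) (p i) (n i)) (hn : ∀ i, ∀ k < n i, p i ^ k ≠ 0) :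
    Module.length B B = ((∑ i, n i : ℕ) : ℕ∞) := by
  classical
  let φ : ∀ i, B →+* R i := fun i => (Pi.evalRingHom R i).comp e.toRingHom
  have hφ : ∀ i, Function.Surjective (φ i) := by
    intro i r
    refine ⟨e.symm (Pi.single i r), ?_⟩
    simp [φ]
  let _ : ∀ i, Module B (R i) := fun i => Module.compHom (R i) (φ i)
  let E : B ≃ₗ[B] (∀ i, R i) :=
    { toFun := e
      invFun := e.symm
      left_inv := e.left_inv
      right_inv := e.right_inv
      map_add' := e.map_add
      map_smul' := fun b c => by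
        funext i
        show e (b * c) i = φ i b * e c i
        rw [map_mul]
        rfl }
  rw [E.length_eq, Module.length_pi_of_fintype, Nat.cast_sum]
  refine Finset.sum_congr rfl fun i _ => ?_
  rw [length_surj (φ i) (hφ i) (fun _ _ => rfl), length_chain (hR i) (hn i)]

/-- minimal chain data -/
theorem exists_min {S : Type u} [Ring S] (h : IsArtinianChainRing S) :
    ∃ (p : S) (n : ℕ), ChainData S p n ∧ ∀ k < n, p ^ k ≠ 0 := by
  classical
  obtain ⟨p, n, hp⟩ := h.chainData
  have hex : ∃ k, p ^ k = 0 := ⟨n, hp.pow_eq⟩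
  exact ⟨p, Nat.find hex, ⟨Nat.find_spec hex, hp.left, hp.right, hp.swap, hp.swap'⟩,
    fun k hk => Nat.find_min hex hk⟩

/-- the counting theorem for right modules -/
theorem count {A : Type u} [Ring A] (h : IsProdChain A) :
    ∃ l : ℕ, Module.length A A = l ∧
      (∀ (M : Type v) [AddCommGroup M] [Module Aᵐᵒᵖ M],
        Finite (Submodule (Module.End Aᵐᵒᵖ M) M) ∧
        Nat.card (Submodule (Module.End Aᵐᵒᵖ M) M) ≤ 2 ^ l) ∧
      ∃ (M : Type u) (_ : AddCommGroup M) (_ : Module Aᵐᵒᵖ M),
        Nat.card (Submodule (Module.End Aᵐᵒᵖ M) M) = 2 ^ l := by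
  classical
  obtain ⟨r, R, _, ⟨e⟩, hR⟩ := h
  choose p n hp hn using fun i => exists_min (hR i)
  have e' : Aᵐᵒᵖ ≃+* (∀ i, (R i)ᵐᵒᵖ) := (RingEquiv.op e).trans (RingEquiv.piMulOpposite R)
  refine ⟨∑ i, n i, length_pi e p n hp hn, fun M _ _ => ?_, ?_⟩
  · exact card_le e' (fun i => MulOpposite.op (p i)) n (fun i => (hp i).op) M
  · refine exists_card e' (fun i => MulOpposite.op (p i)) n (fun i => (hp i).op) fun i k hk h0 => ?_
    rw [← MulOpposite.op_pow, MulOpposite.op_eq_zero_iff] at h0
    exact hn i k hk h0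

/-- the opposite ring -/
theorem prodChain_op {A : Type u} [Ring A] (h : IsProdChain A) : IsProdChain Aᵐᵒᵖ := by
  obtain ⟨n, R, _, ⟨e⟩, hR⟩ := h
  exact ⟨n, fun i => (R i)ᵐᵒᵖ, inferInstance,
    ⟨(RingEquiv.op e).trans (RingEquiv.piMulOpposite R)⟩, fun i => (hR i).op⟩

/-- left modules -/
theorem endo_left {A : Type u} [Ring A] (h : IsProdChain A) (M : Type v) [AddCommGroup M]
    [Module A M] : Endo A M := by
  classical
  obtain ⟨r, R, _, ⟨e⟩, hR⟩ := h
  choose p n hp using fun i => (hR i).chainData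
  exact (D_of_pi R e p n hp M).endo

end Pool.Agent.H58.ED
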