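import Pool.Agent.H58.ED.Cnt

set_option autoImplicit false

/-!
The bound for the number of `End`-submodules is attained.
-/

namespace Pool.Agent.H58.ED

universe u v

open Pool.Agent.H86.EndoDist

section

variable {ι : Type} [Fintype ι] [DecidableEq ι] {B : Type u} [Ring B] {R : ι → Type u}
  [∀ i, Ring (R i)] (e : B ≃+* (∀ i, R i)) (p : ∀ i, R i) (n : ι → ℕ)

/-- the sum over all factors `i` and all `k < n i` of the left ideals annihilated by `p ^ (k + 1)` -/
def Sx : AddSubgroup (∀ q : (Σ i, Fin (n i)), R q.1) where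
  carrier := {m | ∀ q, p q.1 ^ ((q.2 : ℕ) + 1) * m q = 0}
  add_mem' := by
    intro a b ha hb q
    rw [Pi.add_apply, mul_add, ha q, hb q, add_zero]
  zero_mem' := by
    intro q
    rw [Pi.zero_apply, mul_zero]
  neg_mem' := by
    intro a ha q
    rw [Pi.neg_apply, mul_neg, ha q, neg_zero]

variable (hR : ∀ i, ChainData (R i) (p i) (n i))

/-- the action of `B` on `Sx` -/
noncomputable def actB : Module B (Sx p n) where
  smul b m := ⟨fun q => e b q.1 * m.1 q, by
    intro q
    obtain ⟨y, hy⟩ := (hR q.1).swap_pow ((q.2 : ℕ) + 1) (e b q.1)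
    rw [← mul_assoc, hy, mul_assoc, m.2 q, mul_zero]⟩
  one_smul m := by
    apply Subtype.ext
    funext q
    show e 1 q.1 * m.1 q = m.1 q
    rw [map_one, Pi.one_apply, one_mul]
  mul_smul b c m := by
    apply Subtype.ext
    funext q
    show e (b * c) q.1 * m.1 q = e b q.1 * (e c q.1 * m.1 q)
    rw [map_mul, Pi.mul_apply, mul_assoc]
  smul_zero b := by
    apply Subtype.ext
    funext q
    show e b q.1 * 0 = 0
    rw [mul_zero]
  smul_add b m m' := by
    apply Subtype.ext
    funext q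
    show e b q.1 * (m.1 q + m'.1 q) = e b q.1 * m.1 q + e b q.1 * m'.1 q
    rw [mul_add]
  add_smul b c m := by
    apply Subtype.ext
    funext q
    show e (b + c) q.1 * m.1 q = e b q.1 * m.1 q + e c q.1 * m.1 q
    rw [map_add, Pi.add_apply, add_mul]
  zero_smul m := by
    apply Subtype.ext
    funext q
    show e 0 q.1 * m.1 q = 0
    rw [map_zero, Pi.zero_apply, zero_mul]

/-- the element with one component `x` -/
def sg (q : (Σ i, Fin (n i))) (x : R q.1) (hx : p q.1 ^ ((q.2 : ℕ) + 1) * x = 0) : Sx p n :=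
  ⟨Pi.single q x, by
    intro q'
    by_cases h : q' = q
    · subst h
      rw [Pi.single_eq_same]
      exact hx
    · rw [Pi.single_eq_of_ne h, mul_zero]⟩

/-- partial sums of the bits -/
def al (β : (Σ i, Fin (n i)) → Bool) (i : ι) (k : ℕ) : ℕ :=
  ∑ j ∈ Finset.range k, if h : j < n i then (β ⟨i, ⟨j, h⟩⟩).toNat else 0

omit [Fintype ι] [DecidableEq ι] in
lemma al_succ (β : (Σ i, Fin (n i)) → Bool) (i : ι) (k : ℕ) :
    al n β i (k + 1) = al n β i k + if h : k < n i then (β ⟨i, ⟨k, h⟩⟩).toNat else 0 :=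
  Finset.sum_range_succ _ _

omit [Fintype ι] [DecidableEq ι] in
lemma al_step (β : (Σ i, Fin (n i)) → Bool) (i : ι) (k : ℕ) :
    al n β i k ≤ al n β i (k + 1) ∧ al n β i (k + 1) ≤ al n β i k + 1 := by
  rw [al_succ]
  refine ⟨Nat.le_add_right _ _, Nat.add_le_add_left ?_ _⟩
  split_ifs with h
  · exact Bool.toNat_le _
  · exact Nat.zero_le _

omit [Fintype ι] [DecidableEq ι] in
lemma al_add (β : (Σ i, Fin (n i)) → Bool) (i : ι) (k j : ℕ) :
    al n β i k ≤ al n β i (k + j) ∧ al n β i (k + j) ≤ al n β i k + j := by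
  induction j with
  | zero => simp
  | succ j ih =>
    have h := al_step n β i (k + j)
    rw [← add_assoc]
    omega

omit [Fintype ι] [DecidableEq ι] in
lemma al_le (β : (Σ i, Fin (n i)) → Bool) (i : ι) (k : ℕ) : al n β i k ≤ k := by
  have h := (al_add n β i 0 k).2
  have h0 : al n β i 0 = 0 := Finset.sum_range_zero _
  rw [zero_add, h0, zero_add] at h
  exact h

/-- elements annihilated by `p ^ c` are divisible by `p ^ (n - c)` -/
lemma ann_iff {S : Type u} [Ring S] {p : S} {n : ℕ} (hS : ChainData S p n)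
    (hn : ∀ k < n, p ^ k ≠ 0) {c : ℕ} (hc : c ≤ n) {x : S} (hx : p ^ c * x = 0) :
    ∃ y, x = p ^ (n - c) * y := by
  obtain ⟨j, w, rfl⟩ := hS.right x
  by_cases hj : n - c ≤ j
  · obtain ⟨i, rfl⟩ := Nat.exists_eq_add_of_le hj
    exact ⟨p ^ i * w, by rw [pow_add, mul_assoc]⟩
  · exfalso
    have h1 : p ^ (c + j) = 0 := by
      have h2 : p ^ c * (p ^ j * (w : S)) * ((w⁻¹ : Sˣ) : S) = 0 := by rw [hx, zero_mul]
      rwa [mul_assoc, mul_assoc, Units.mul_inv, mul_one, ← pow_add] at h2
    exact hn (c + j) (by omega) h1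

include e hR in
theorem exists_card (hn : ∀ i, ∀ k < n i, p i ^ k ≠ 0) :
    ∃ (M : Type u) (_ : AddCommGroup M) (_ : Module B M),
      Nat.card (Submodule (Module.End B M) M) = 2 ^ (∑ i, n i) := by
  classical
  let _ : Module B (Sx p n) := actB e p n hR
  refine ⟨Sx p n, inferInstance, inferInstance, ?_⟩
  have hsm : ∀ (b : B) (m : Sx p n) (q : (Σ i, Fin (n i))), (b • m).1 q = e b q.1 * m.1 q :=
    fun _ _ _ => rfl
  have hpe : ∀ (i : ι) (a : ℕ) (m : Sx p n) (q : (Σ i, Fin (n i))), q.1 = i →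
      ((pe e p i ^ a) • m).1 q = p q.1 ^ a * m.1 q := by
    rintro i a m q rfl
    rw [hsm, map_pow, Pi.pow_apply]
    simp [pe]
  -- the key computation: a linear map respects the layers
  have key : ∀ (f : Module.End B (Sx p n)) (q q' : (Σ i, Fin (n i))) (x : R q'.1)
      (hx : p q'.1 ^ ((q'.2 : ℕ) + 1) * x = 0) (a c : ℕ),
      p q'.1 ^ ((q'.2 : ℕ) + 1 - a) * x = 0 → a ≤ (q'.2 : ℕ) + 1 →
      (q.1 = q'.1 → min ((q.2 : ℕ) + 1) ((q'.2 : ℕ) + 1) ≤ c + a) →
      p q.1 ^ c * (f (sg p n q' x hx)).1 q = 0 := by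
    intro f q q' x hx a c hxa ha hc
    by_cases hq : q.1 = q'.1
    · -- `x = p ^ a y`
      have hc := hc hq
      have hk := q'.2.2
      obtain ⟨y, hy⟩ := ann_iff (hR q'.1) (hn q'.1) (c := (q'.2 : ℕ) + 1 - a) (by omega) hxa
      have h1 : n q'.1 - ((q'.2 : ℕ) + 1 - a) = a + (n q'.1 - ((q'.2 : ℕ) + 1)) := by omega
      rw [h1, pow_add, mul_assoc] at hy
      have hy2 : p q'.1 ^ ((q'.2 : ℕ) + 1) * (p q'.1 ^ (n q'.1 - ((q'.2 : ℕ) + 1)) * y) = 0 := by
        rw [← mul_assoc, ← pow_add]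
        have h2 : (q'.2 : ℕ) + 1 + (n q'.1 - ((q'.2 : ℕ) + 1)) = n q'.1 := by omega
        rw [h2, (hR q'.1).pow_eq, zero_mul]
      set g := sg p n q' _ hy2 with hg
      have h3 : sg p n q' x hx = (pe e p q'.1 ^ a) • g := by
        apply Subtype.ext
        funext r
        by_cases hr : r.1 = q'.1
        · rw [hpe q'.1 a g r hr]
          by_cases hr2 : r = q'
          · subst hr2
            show (Pi.single r x : ∀ q : (Σ i, Fin (n i)), R q.1) r = p r.1 ^ a *
              (Pi.single r (p r.1 ^ (n r.1 - ((r.2 : ℕ) + 1)) * y) : ∀ q : (Σ i, Fin (n i)), R q.1) r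
            rw [Pi.single_eq_same, Pi.single_eq_same]
            exact hy
          · show (Pi.single q' x : ∀ q : (Σ i, Fin (n i)), R q.1) r = p r.1 ^ a *
              (Pi.single q' (p q'.1 ^ (n q'.1 - ((q'.2 : ℕ) + 1)) * y) :
                ∀ q : (Σ i, Fin (n i)), R q.1) r
            rw [Pi.single_eq_of_ne hr2, Pi.single_eq_of_ne hr2, mul_zero]
        · have hr2 : r ≠ q' := fun h => hr (congrArg Sigma.fst h)
          rw [hsm]
          show (Pi.single q' x : ∀ q : (Σ i, Fin (n i)), R q.1) r = _ *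
              (Pi.single q' (p q'.1 ^ (n q'.1 - ((q'.2 : ℕ) + 1)) * y) :
                ∀ q : (Σ i, Fin (n i)), R q.1) r
          rw [Pi.single_eq_of_ne hr2, Pi.single_eq_of_ne hr2, mul_zero]
      have h4 : p q.1 ^ ((q'.2 : ℕ) + 1) * (f g).1 q = 0 := by
        have h5 : (pe e p q'.1 ^ ((q'.2 : ℕ) + 1)) • g = 0 := by
          apply Subtype.ext
          funext r
          by_cases hr2 : r = q'
          · subst hr2
            rw [hpe r.1 _ g r rfl]
            show p r.1 ^ ((r.2 : ℕ) + 1) *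
              (Pi.single r (p r.1 ^ (n r.1 - ((r.2 : ℕ) + 1)) * y) : ∀ q : (Σ i, Fin (n i)), R q.1) r
                = 0
            rw [Pi.single_eq_same]
            exact hy2
          · rw [hsm]
            show _ * (Pi.single q' (p q'.1 ^ (n q'.1 - ((q'.2 : ℕ) + 1)) * y) :
                ∀ q : (Σ i, Fin (n i)), R q.1) r = 0
            rw [Pi.single_eq_of_ne hr2, mul_zero]
        have h6 : (pe e p q'.1 ^ ((q'.2 : ℕ) + 1)) • f g = 0 := by
          rw [← map_smul, h5, map_zero]
        have h7 : ((pe e p q'.1 ^ ((q'.2 : ℕ) + 1)) • f g).1 q = 0 := by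
          rw [h6]
          rfl
        rwa [hpe q'.1 _ (f g) q hq] at h7
      have h8 : p q.1 ^ ((q.2 : ℕ) + 1) * (f g).1 q = 0 := (f g).2 q
      rw [h3, map_smul, hpe q'.1 a (f g) q hq, ← mul_assoc, ← pow_add]
      rcases le_total ((q.2 : ℕ) + 1) ((q'.2 : ℕ) + 1) with h9 | h9
      · rw [min_eq_left h9] at hc
        obtain ⟨j, hj⟩ := Nat.exists_eq_add_of_le hc
        rw [hj, add_comm, pow_add, mul_assoc, h8, mul_zero]
      · rw [min_eq_right h9] at hc
        obtain ⟨j, hj⟩ := Nat.exists_eq_add_of_le hc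
        rw [hj, add_comm, pow_add, mul_assoc, h4, mul_zero]
    · -- different factors
      have h1 : ep e q'.1 • sg p n q' x hx = sg p n q' x hx := by
        apply Subtype.ext
        funext r
        rw [hsm]
        by_cases hr2 : r = q'
        · subst hr2
          simp [ep]
        · show _ * (Pi.single q' x : ∀ q : (Σ i, Fin (n i)), R q.1) r =
            (Pi.single q' x : ∀ q : (Σ i, Fin (n i)), R q.1) r
          rw [Pi.single_eq_of_ne hr2, mul_zero]
      have h2 : (f (sg p n q' x hx)).1 q = 0 := by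
        rw [← h1, map_smul, hsm]
        simp [ep, Pi.single_eq_of_ne hq]
      rw [h2, mul_zero]
  -- the submodules
  let N : ((Σ i, Fin (n i)) → Bool) → Submodule (Module.End B (Sx p n)) (Sx p n) := fun β =>
    { carrier := {m | ∀ q : (Σ i, Fin (n i)),
        p q.1 ^ ((q.2 : ℕ) + 1 - al n β q.1 (q.2 + 1)) * m.1 q = 0}
      add_mem' := by
        intro a b ha hb q
        show _ * (a.1 q + b.1 q) = 0
        rw [mul_add, ha q, hb q, add_zero]
      zero_mem' := by
        intro q
        show _ * (0 : R q.1) = 0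
        rw [mul_zero]
      smul_mem' := by
        intro f m hm q
        show _ * (f m).1 q = 0
        have hm1 : m = ∑ q', sg p n q' (m.1 q') (m.2 q') := by
          apply Subtype.ext
          rw [AddSubgroup.val_finset_sum]
          exact (Finset.univ_sum_single m.1).symm
        have h1 : (f m).1 q = ∑ q', (f (sg p n q' (m.1 q') (m.2 q'))).1 q := by
          conv_lhs => rw [hm1]
          rw [map_sum, AddSubgroup.val_finset_sum, Finset.sum_apply]
        rw [h1, Finset.mul_sum]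
        refine Finset.sum_eq_zero fun q' _ => ?_
        refine key f q q' _ _ (al n β q'.1 (q'.2 + 1)) _ (hm q') (al_le n β _ _) fun hqq => ?_
        have h2 := al_le n β q.1 (q.2 + 1)
        have h2' := al_le n β q'.1 (q'.2 + 1)
        rcases le_total (q.2 : ℕ) (q'.2 : ℕ) with h3 | h3
        · obtain ⟨j, hj⟩ := Nat.exists_eq_add_of_le h3
          have h4 := (al_add n β q.1 (q.2 + 1) j).1
          have h5 : al n β q'.1 ((q'.2 : ℕ) + 1) = al n β q.1 ((q.2 : ℕ) + 1 + j) := by
            have h6 : (q'.2 : ℕ) + 1 = (q.2 : ℕ) + 1 + j := by omega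
            rw [h6, ← hqq]
          rw [← h5] at h4
          rw [min_eq_left (by omega)]
          omega
        · obtain ⟨j, hj⟩ := Nat.exists_eq_add_of_le h3
          have h4 := (al_add n β q.1 (q'.2 + 1) j).2
          have h5 : al n β q.1 ((q.2 : ℕ) + 1) = al n β q.1 ((q'.2 : ℕ) + 1 + j) := by
            congr 1
            omega
          have h6 : al n β q.1 ((q'.2 : ℕ) + 1) = al n β q'.1 ((q'.2 : ℕ) + 1) := by rw [hqq]
          rw [← h5, h6] at h4
          rw [min_eq_right (by omega)]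
          omega }
  have hN : ∀ β (m : Sx p n), m ∈ N β ↔ ∀ q : (Σ i, Fin (n i)),
      p q.1 ^ ((q.2 : ℕ) + 1 - al n β q.1 (q.2 + 1)) * m.1 q = 0 := fun _ _ => Iff.rfl
  have hle : ∀ β β' : (Σ i, Fin (n i)) → Bool, N β ≤ N β' →
      ∀ q : (Σ i, Fin (n i)), al n β' q.1 (q.2 + 1) ≤ al n β q.1 (q.2 + 1) := by
    intro β β' h q
    by_contra hcon
    push Not at hcon
    have hk := q.2.2
    have h1 := al_le n β q.1 (q.2 + 1)
    have h1' := al_le n β' q.1 (q.2 + 1)
    set c := (q.2 : ℕ) + 1 - al n β q.1 (q.2 + 1) with hc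
    have hx : ∀ d, c ≤ d → p q.1 ^ d * p q.1 ^ (n q.1 - c) = 0 := by
      intro d hd
      obtain ⟨j, rfl⟩ := Nat.exists_eq_add_of_le hd
      rw [← pow_add]
      have h2 : c + j + (n q.1 - c) = n q.1 + j := by omega
      rw [h2, pow_add, (hR q.1).pow_eq, zero_mul]
    have h3 : sg p n q (p q.1 ^ (n q.1 - c)) (hx _ (by omega)) ∈ N β := by
      rw [hN]
      intro r
      by_cases hr : r = q
      · subst hr
        show _ * (Pi.single r _ : ∀ q : (Σ i, Fin (n i)), R q.1) r = 0
        rw [Pi.single_eq_same]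
        exact hx c le_rfl
      · show _ * (Pi.single q _ : ∀ q : (Σ i, Fin (n i)), R q.1) r = 0
        rw [Pi.single_eq_of_ne hr, mul_zero]
    have h4 := (hN β' _).1 (h h3) q
    have h5 : p q.1 ^ ((q.2 : ℕ) + 1 - al n β' q.1 (q.2 + 1)) * p q.1 ^ (n q.1 - c) = 0 := by
      have h6 : (sg p n q (p q.1 ^ (n q.1 - c)) (hx _ (by omega))).1 q = p q.1 ^ (n q.1 - c) := by
        show (Pi.single q _ : ∀ q : (Σ i, Fin (n i)), R q.1) q = _
        rw [Pi.single_eq_same]
      rwa [h6] at h4
    rw [← pow_add] at h5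
    exact hn q.1 _ (by omega) h5
  have hinj : Function.Injective N := by
    intro β β' h
    have h1 : ∀ (i : ι) (k : ℕ), k ≤ n i → al n β i k = al n β' i k := by
      intro i k hk
      cases k with
      | zero => rfl
      | succ k =>
        exact le_antisymm (hle β' β h.ge ⟨i, ⟨k, by omega⟩⟩) (hle β β' h.le ⟨i, ⟨k, by omega⟩⟩)
    funext q
    have h2 := h1 q.1 (q.2 + 1) q.2.2
    have h3 := h1 q.1 q.2 q.2.2.le
    rw [al_succ, al_succ, h3] at h2
    have h4 : (q.2 : ℕ) < n q.1 := q.2.2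
    rw [dif_pos h4, dif_pos h4] at h2
    have h5 : (β q).toNat = (β' q).toNat := Nat.add_left_cancel h2
    cases h6 : β q <;> cases h7 : β' q <;> simp [h6, h7] at h5 ⊢
  obtain ⟨hfin, hcard⟩ := card_le e p n hR (Sx p n)
  refine le_antisymm hcard ?_
  have h1 := Nat.card_le_card_of_injective N hinj
  refine le_trans (le_of_eq ?_) h1
  simp [Nat.card_eq_fintype_card, Fintype.card_sigma]

end

end Pool.Agent.H58.ED
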